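import Pool.Agent.R910.Det.Conv

/-!
# The Lefschetz standard conjecture and the determinant of the cohomology
-/

open CategoryTheory AlgebraicGeometry

universe u v

namespace Pool.Agent.R910.Det

open Module
open Pool.Agent.H914 Pool.Agent.H914.VarClass Pool.Agent.H914.VarClass.Obj
  Pool.Agent.H914.WeilCohomology Pool.Agent.Y133.Half Pool.Agent.W552 Pool.Agent.H281R3.HT

variable {k : Type u} [Field k] {𝒱 : VarClass k} {ops : CycleOps 𝒱}
  {W : WeilCohomology.{u, v} ops} {X Y A B : 𝒱.Obj}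

lemma tr_span {i m : ℕ} (x : Basis (Fin (m + 1)) W.K (W.gr X i)) {z : W.H X}
    (h1 : ∀ r, W.tr X ((x r : W.H X) * z) = 0) : ∀ a ∈ W.gr X i, W.tr X (a * z) = 0 := by
  intro a ha
  have h2 : (⟨a, ha⟩ : W.gr X i) ∈ Submodule.span W.K (Set.range x) := by
    rw [x.span_eq]; exact Submodule.mem_top
  have h3 : ∀ b : W.gr X i, b ∈ Submodule.span W.K (Set.range x) →
      W.tr X ((b : W.H X) * z) = 0 := by
    intro b hb
    induction hb using Submodule.span_induction with
    | mem b hb => obtain ⟨r, rfl⟩ := hb; exact h1 r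
    | zero => simp
    | add b b' _ _ h h' => rw [Submodule.coe_add, add_mul, map_add, h, h', add_zero]
    | smul c b _ h => rw [Submodule.coe_smul, smul_mul_assoc, map_smul, h, smul_zero]
  exact h3 _ h2

/-- The expansion of a class in the complementary degree. -/
lemma expand {i m : ℕ} {h : W.H X} (hi : i ≤ X.dim) (hh : h ∈ W.gr X (2 * (X.dim - i)))
    {x y : Basis (Fin (m + 1)) W.K (W.gr X i)}
    (hxy : ∀ r s, W.tr X ((x r : W.H X) * (y s : W.H X) * h) = if s = r then 1 else 0)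
    {z : W.H X} (hz : z ∈ W.gr X (2 * X.dim - i)) :
    z = ∑ j, W.tr X ((x j : W.H X) * z) • ((y j : W.H X) * h) := by
  classical
  rw [← sub_eq_zero]
  have hm : ∀ j, (y j : W.H X) * h ∈ W.gr X (2 * X.dim - i) := by
    intro j
    have := W.mul_mem (y j).2 hh
    rwa [show i + 2 * (X.dim - i) = 2 * X.dim - i by omega] at this
  refine eq_zero_of_tr (i := i) (by omega) (Submodule.sub_mem _ hz
    (Submodule.sum_mem _ fun j _ => Submodule.smul_mem _ _ (hm j))) (tr_span x fun r => ?_)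
  rw [mul_sub, map_sub, Finset.mul_sum, map_sum]
  simp only [mul_smul_comm, map_smul, ← mul_assoc, hxy, smul_eq_mul, mul_ite, mul_one, mul_zero,
    Finset.sum_ite_eq', Finset.mem_univ, if_true, sub_self]

lemma exists_class {D : X.Cycles} (hD : X.IsCyc 1 D) (hHL : HardLefschetz W X D)
    (hB : LefschetzB W X D) {i m : ℕ} (hi : i ≤ X.dim) (hb : W.betti X i = m + 1) :
    ∃ x y : Fin (m + 1) → W.H X, (∀ r, x r ∈ W.gr X i) ∧ (∀ r, y r ∈ W.gr X i) ∧
      AS W (X.prod X) (∑ j, xp W (x j) (y j)) ∧ xp W (alt W X m x) (alt W X m y) ≠ 0 := by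
  classical
  obtain ⟨x, y, hxy⟩ := exists_dual hD hHL hi hb
  obtain ⟨f, F, t⟩ := exists_fr hD hHL hB
  have hp := proj_aop hD hHL hB
  set n := X.dim with hn
  set h := W.cl X D ^ (n - i) with hh
  have hhm : h ∈ W.gr X (2 * (n - i)) := pow_mem hD _
  set s : W.K := (-1) ^ (i * (2 * n - i)) with hs
  have hs0 : s ≠ 0 := pow_ne_zero _ (neg_ne_zero.2 one_ne_zero)
  have hss : s * s = 1 := by
    rw [hs, ← mul_pow]
    simp
  let L' : Module.End W.K (W.H X) := s • (wop W X D f * LinearMap.mulRight W.K h)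
  have hyh : ∀ a ∈ W.gr X i, a * h ∈ W.gr X (2 * n - i) := by
    intro a ha
    have := W.mul_mem ha hhm
    rwa [show i + 2 * (n - i) = 2 * n - i by omega] at this
  have hL' : ∀ a ∈ W.gr X i, L' a ∈ W.gr X i := by
    intro a ha
    have h1 := F.w_mem (by omega) (hyh a ha)
    rw [show 2 * X.dim - (2 * n - i) = i by omega] at h1
    exact Submodule.smul_mem _ _ h1
  have hinj : Function.Injective (L'.restrict hL') := by
    rw [← LinearMap.ker_eq_bot, LinearMap.ker_eq_bot']
    intro a ha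
    have h1 : L' (a : W.H X) = 0 := congrArg Subtype.val ha
    have h2 : wop W X D f ((a : W.H X) * h) = 0 := by
      rcases smul_eq_zero.1 h1 with h3 | h3
      · exact absurd h3 hs0
      · exact h3
    have h3 := t.w_sq (hyh _ a.2)
    have h4 : wey (LinearMap.mulLeft W.K (W.cl X D)) f ((a : W.H X) * h) = 0 := h2
    rw [h4, map_zero] at h3
    have h5 : (a : W.H X) * h = 0 := by
      rcases smul_eq_zero.1 h3.symm with h6 | h6
      · exact absurd h6 (pow_ne_zero _ (neg_ne_zero.2 one_ne_zero))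
      · exact h6
    apply Subtype.ext
    apply (hHL i hi).1 _ a.2
    rw [LinearMap.pow_mulLeft, LinearMap.mulLeft_apply, W.even_comm hhm]
    exact h5
  let y' : Basis (Fin (m + 1)) W.K (W.gr X i) := y.map (LinearEquiv.ofInjectiveEndo _ hinj)
  have hy' : ∀ j, (y' j : W.H X) = s • wop W X D f ((y j : W.H X) * h) := fun j => rfl
  have hcorr : W.corr (∑ j, xp W (x j : W.H X) (y' j : W.H X)) =
      wop W X D f * proj (W.isInternal X) (2 * n - i) := by
    apply gr_ext (W.isInternal X)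
    intro l z hz
    have h3 : W.corr (∑ j, xp W (x j : W.H X) (y' j : W.H X)) z =
        ∑ j, ((-1 : W.K) ^ (i * l) * W.tr X ((x j : W.H X) * z)) • (y' j : W.H X) := by
      have h4 : ∀ c : W.H (X.prod X), W.corr c z = corrL W X X c z := fun _ => rfl
      rw [h4, map_sum, LinearMap.sum_apply]
      refine Finset.sum_congr rfl fun j _ => ?_
      rw [← h4, corr_xp _ (PH.of (y' j).2) (PH.of hz)]
    rw [h3, Module.End.mul_apply]
    by_cases hl : l = 2 * n - i
    · subst hl
      rw [proj_same _ hz]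
      conv_rhs => rw [expand hi hhm hxy hz]
      rw [map_sum]
      refine Finset.sum_congr rfl fun j _ => ?_
      rw [hy', smul_smul, map_smul, ← hs, mul_right_comm, hss, one_mul]
    · rw [proj_ne _ hz hl, map_zero]
      refine Finset.sum_eq_zero fun j _ => ?_
      rw [W.tr_eq_zero (W.mul_mem (x j).2 hz) (by omega), mul_zero, zero_smul]
  refine ⟨fun j => (x j : W.H X), fun j => (y' j : W.H X), fun r => (x r).2, fun r => (y' r).2,
    ?_, ?_⟩
  · obtain ⟨c, hc, hc'⟩ := F.wop_aop.mul (hp (2 * n - i))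
    rw [← hcorr] at hc'
    have h1 : c - ∑ j, xp W (x j : W.H X) (y' j : W.H X) = 0 := by
      apply corr_inj
      have : W.corr (c - ∑ j, xp W (x j : W.H X) (y' j : W.H X)) =
        W.corr c - W.corr (∑ j, xp W (x j : W.H X) (y' j : W.H X)) := map_sub (corrL W X X) _ _
      rw [this, hc', sub_self]
    rw [sub_eq_zero] at h1
    rw [← h1]
    exact hc
  · have h1 := alt_basis y' y
    intro h0
    obtain ⟨ε, hε, H⟩ := contr_alt W X h i m
    have h2 := H (fun r => (x r : W.H X)) (fun r => (y r : W.H X)) (fun r => (x r).2)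
      (fun r => (y r).2) hxy
    rw [h1, xp_smul_right, h0, smul_zero, map_zero] at h2
    have h3 : ∑ σ : Equiv.Perm (Fin (m + 1)), xp W (x (σ 0) : W.H X) (y (σ 0) : W.H X) = 0 := by
      rcases smul_eq_zero.1 h2.symm with h4 | h4
      · exact absurd h4 hε
      · exact h4
    have h4 := corr_sum_inj hi hxy (hyh _ (y 0).2) (by rw [h3, corr_zero]; rfl)
    have h5 := hxy 0 0
    rw [mul_assoc, h4, mul_zero, map_zero, if_pos rfl] at h5
    exact zero_ne_one h5

/-- **The determinant of the cohomology is algebraic.** -/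
theorem det_of_lefschetzB {D : X.Cycles} (hD : X.IsCyc 1 D) (hHL : HardLefschetz W X D)
    (hB : LefschetzB W X D) {i m : ℕ} (hi : i ≤ X.dim) (hb : W.betti X i = m + 1) :
    ∃ z, ((pw X m).prod (pw X m)).IsCyc (i * (m + 1)) z ∧ W.cl _ z ≠ 0 ∧
      W.cl _ z ∈ detSq' W X i m := by
  obtain ⟨x, y, hx, hy, hAS, hne⟩ := exists_class hD hHL hB hi hb
  obtain ⟨ε, hε, H⟩ := anti_Th W X i m
  have h1 := H x y hx hy
  set C := ∑ σ : Equiv.Perm (Fin (m + 1)), sgp W.K (i + 1) σ •
    W.map (ms X m σ) (Th W X (∑ j, xp W (x j) (y j)) m) with hC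
  have h2 : AS W _ C := by
    apply AS.ratSub.sum
    intro σ _
    have h3 := ((Th_AS hAS m).map (ms X m σ)).smul (((Equiv.Perm.sign σ : ℤ) : ℚ) ^ (i + 1))
    have h4 : ((((Equiv.Perm.sign σ : ℤ) : ℚ) ^ (i + 1) : ℚ) : W.K) = sgp W.K (i + 1) σ := by
      rw [sgp]
      push_cast
      rfl
    rwa [h4] at h3
  have hgr : ∀ v : Fin (m + 1) → W.H X, (∀ r, v r ∈ W.gr X i) →
      alt W X m v ∈ W.gr (pw X m) (i * (m + 1)) := by
    intro v hv
    rw [alt_apply]
    exact Submodule.sum_mem _ fun σ _ => Submodule.smul_mem _ _ (wd_mem m _ fun r => hv _)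
  have h5 : C ∈ W.gr ((pw X m).prod (pw X m)) (2 * (i * (m + 1))) := by
    rw [h1, two_mul]
    exact Submodule.smul_mem _ _ (W.mul_mem (W.map_mem _ (hgr x hx)) (W.map_mem _ (hgr y hy)))
  obtain ⟨z, hz, hz'⟩ := h2.alg h5
  refine ⟨z, hz, ?_, ?_⟩
  · rw [hz', h1]
    exact smul_ne_zero hε hne
  · rw [hz', h1]
    exact Submodule.smul_mem _ _ (mem_detSq hx hy)

/-- **The Lefschetz standard conjecture and the determinant of the cohomology.** -/
theorem lefschetzB_iff_det {D : X.Cycles} (hD : X.IsCyc 1 D) (hHL : HardLefschetz W X D) :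
    LefschetzB W X D ↔ ∀ i < X.dim, ∀ m, W.betti X i = m + 1 →
      ∃ z, ((pw X m).prod (pw X m)).IsCyc (i * (m + 1)) z ∧ W.cl _ z ≠ 0 ∧
        W.cl _ z ∈ detSq' W X i m := by
  constructor
  · intro hB i hi m hm
    exact det_of_lefschetzB hD hHL hB hi.le hm
  · intro h
    apply lefschetzB_of_det hD hHL
    intro i hi m hm
    obtain ⟨z, hz, hz0, hzd⟩ := h i hi m hm
    exact ⟨W.cl _ z, KA.of (AS.of ⟨z, hz, rfl⟩), hz0, hzd⟩

end Pool.Agent.R910.Det
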