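import Mathlib

/-!
# Products of elements which commute up to a fixed sign
-/

namespace Pool.Agent.R910.Det

open Equiv

variable {K A : Type*} [Field K] [Ring A] [Algebra K A]

lemma prod_adj {c : K} : ∀ {n : ℕ} (z : Fin (n + 1) → A) (_ : ∀ r s, z r * z s = c • (z s * z r))
    (i : Fin n), (List.ofFn (z ∘ swap i.castSucc i.succ)).prod = c • (List.ofFn z).prod
  | 0, _, _, i => i.elim0
  | n + 1, z, hz, i => by
    refine Fin.cases ?_ (fun j => ?_) i
    · have h1 : (z ∘ swap (Fin.castSucc 0) (Fin.succ 0)) 0 = z 1 := by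
        simp
      have h2 : (z ∘ swap (Fin.castSucc 0) (Fin.succ 0)) 1 = z 0 := by
        simp
      have h3 : ∀ r : Fin n, (z ∘ swap (Fin.castSucc 0) (Fin.succ 0)) r.succ.succ =
          z r.succ.succ := by
        intro r
        simp only [Function.comp_apply]
        rw [swap_apply_of_ne_of_ne]
        · rw [Fin.castSucc_zero]
          exact Fin.succ_ne_zero _
        · intro h
          exact Fin.succ_ne_zero _ (Fin.succ_injective _ h)
      rw [List.ofFn_succ, List.ofFn_succ, List.ofFn_succ (f := z), List.ofFn_succ, List.prod_cons,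
        List.prod_cons, List.prod_cons, List.prod_cons, ← mul_assoc, ← mul_assoc]
      have h4 : (fun r : Fin n => (z ∘ swap (Fin.castSucc 0) (Fin.succ 0)) r.succ.succ) =
        fun r => z r.succ.succ := funext h3
      have h5 : (z ∘ swap (Fin.castSucc 0) (Fin.succ 0)) (Fin.succ 0) = z 0 := h2
      rw [h4, h1, h5, hz 1 0, smul_mul_assoc]
      rfl
    · have h1 : (z ∘ swap (j.succ.castSucc) (j.succ.succ)) 0 = z 0 := by
        simp only [Function.comp_apply]
        rw [swap_apply_of_ne_of_ne]
        · intro h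
          exact Fin.succ_ne_zero j (Fin.castSucc_injective _ (h.symm.trans Fin.castSucc_zero.symm))
        · exact (Fin.succ_ne_zero _).symm
      have h2 : (fun r : Fin (n + 1) => (z ∘ swap (j.succ.castSucc) (j.succ.succ)) r.succ) =
          (fun r => z r.succ) ∘ swap j.castSucc j.succ := by
        funext r
        simp only [Function.comp_apply]
        congr 1
        rw [Fin.castSucc_succ]
        exact (Fin.succ_injective _).swap_apply _ _ _ |>.symm ▸ rfl
      rw [List.ofFn_succ, List.prod_cons, h1, h2, prod_adj (fun r => z r.succ)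
        (fun r s => hz _ _) j, List.ofFn_succ (f := z), List.prod_cons, mul_smul_comm]

/-- The sign of the permutation to the power `i`. -/
def sgp (K : Type*) [Field K] {n : ℕ} (i : ℕ) (σ : Perm (Fin n)) : K :=
  (((Perm.sign σ : ℤ) : K)) ^ i

lemma sgp_one (i n : ℕ) : sgp K i (1 : Perm (Fin n)) = 1 := by simp [sgp]

lemma sgp_mul (i : ℕ) {n : ℕ} (σ τ : Perm (Fin n)) :
    sgp K i (σ * τ) = sgp K i σ * sgp K i τ := by
  simp [sgp, mul_pow]

lemma sign_mul_self {n : ℕ} (σ : Perm (Fin n)) :
    ((Perm.sign σ : ℤ) : K) * ((Perm.sign σ : ℤ) : K) = 1 := by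
  have h : ((Perm.sign σ : ℤ)) * (Perm.sign σ : ℤ) = 1 := by
    rcases Int.units_eq_one_or (Perm.sign σ) with h | h <;> simp [h]
  exact_mod_cast congrArg (Int.cast (R := K)) h

lemma sgp_sq (i : ℕ) {n : ℕ} (σ : Perm (Fin n)) : sgp K i σ * sgp K i σ = 1 := by
  rw [sgp, ← mul_pow, sign_mul_self, one_pow]

lemma sgp_succ (i : ℕ) {n : ℕ} (σ : Perm (Fin n)) :
    sgp K (i + 1) σ * sgp K i σ = ((Perm.sign σ : ℤ) : K) := by
  have h := sgp_sq (K := K) i σ
  rw [sgp, pow_succ, ← sgp, mul_assoc, mul_comm _ (sgp K i σ), ← mul_assoc, h, one_mul]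

/-- The product of elements which commute up to the sign `(-1) ^ i`. -/
theorem prod_perm {i : ℕ} {n : ℕ} (σ : Perm (Fin n)) : ∀ (z : Fin n → A),
    (∀ r s, z r * z s = (-1 : K) ^ i • (z s * z r)) →
    (List.ofFn (z ∘ σ)).prod = sgp K i σ • (List.ofFn z).prod := by
  rcases n with _ | n
  · intro z _
    have : σ = 1 := Subsingleton.elim _ _
    subst this
    rw [sgp_one, one_smul]
    rfl
  have hσ : σ ∈ Submonoid.closure (Set.range fun i : Fin n => swap i.castSucc i.succ) := by
    rw [Perm.mclosure_swap_castSucc_succ]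
    exact Submonoid.mem_top _
  induction hσ using Submonoid.closure_induction with
  | mem x hx =>
    obtain ⟨j, rfl⟩ := hx
    intro z hz
    rw [prod_adj z hz j]
    congr 1
    rw [sgp, Perm.sign_swap (Fin.castSucc_lt_succ).ne]
    simp
  | one =>
    intro z _
    rw [sgp_one, one_smul]
    rfl
  | mul x y _ _ hx hy =>
    intro z hz
    have h1 : z ∘ (x * y) = (z ∘ x) ∘ y := rfl
    rw [h1, hy (z ∘ x) (fun r s => hz _ _), hx z hz, smul_smul, sgp_mul, mul_comm]

end Pool.Agent.R910.Det
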