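import Pool.Agent.R910.Det.Tens
import Pool.Agent.R910.KA

/-!
# Contractions
-/

open CategoryTheory AlgebraicGeometry

universe u v

namespace Pool.Agent.R910.Det

open Pool.Agent.H914 Pool.Agent.H914.VarClass Pool.Agent.H914.VarClass.Obj
  Pool.Agent.H914.WeilCohomology Pool.Agent.Y133.Half

variable {k : Type u} [Field k] {𝒱 : VarClass k} {ops : CycleOps 𝒱}
  {W : WeilCohomology.{u, v} ops} {X Y A B : 𝒱.Obj}

lemma push_fst (a : W.H X) (b : W.H Y) : W.push (fst X Y) (xp W a b) = W.tr Y b • a := by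
  apply W.tr_ext
  intro c
  rw [W.tr_push, smul_mul_assoc, map_smul, smul_eq_mul]
  refine gr_induction (W.isInternal Y) (p := fun b => W.tr (X.prod Y) (xp W a b *
    W.map (fst X Y) c) = W.tr Y b * W.tr X (a * c)) ?_ ?_ b
  · intro j b hb
    by_cases hj : j = 2 * Y.dim
    · subst hj
      rw [xp, mul_assoc, W.even_comm (W.map_mem _ hb), ← mul_assoc, ← map_mul, W.tr_prod, mul_comm]
    · rw [W.tr_eq_zero hb hj, zero_mul]
      refine gr_induction (W.isInternal X) (p := fun c => W.tr (X.prod Y) (xp W a b *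
        W.map (fst X Y) c) = 0) ?_ ?_ c
      · intro l c hc
        rw [xp, mul_assoc, W.comm (W.map_mem _ hb) (W.map_mem _ hc), mul_smul_comm, ← mul_assoc,
          ← map_mul, map_smul, W.tr_prod, W.tr_eq_zero hb hj, mul_zero, smul_zero]
      · intro c c' hc hc'
        rw [map_add, mul_add, map_add, hc, hc', add_zero]
  · intro b b' hb hb'
    rw [xp_add_right, add_mul, map_add, hb, hb', map_add, add_mul]

/-- The morphism `A × B × X → (A × X) × (B × X)`. -/
noncomputable def jm (A B X : 𝒱.Obj) : (A.prod B).prod X ⟶ (A.prod X).prod (B.prod X) :=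
  Obj.lift (Obj.lift (fst _ _ ≫ fst _ _) (snd _ _)) (Obj.lift (fst _ _ ≫ snd _ _) (snd _ _))

/-- The contraction. -/
noncomputable def kap (W : WeilCohomology.{u, v} ops) (A B X : 𝒱.Obj) (h : W.H X) :
    W.H ((A.prod X).prod (B.prod X)) →ₗ[W.K] W.H (A.prod B) :=
  W.push (fst (A.prod B) X) ∘ₗ (LinearMap.mulRight W.K (W.map (snd (A.prod B) X) h)) ∘ₗ
    (W.map (jm A B X)).toLinearMap

lemma kap_apply (h : W.H X) (c : W.H ((A.prod X).prod (B.prod X))) :
    kap W A B X h c = W.push (fst (A.prod B) X) (W.map (jm A B X) c *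
      W.map (snd (A.prod B) X) h) := rfl

lemma kap_mem {h : W.H X} (hh : h ∈ KA W X) {c : W.H ((A.prod X).prod (B.prod X))}
    (hc : c ∈ KA W _) : kap W A B X h c ∈ KA W (A.prod B) := by
  rw [kap_apply]
  exact KA.push _ (KA.mul (KA.map _ hc) (KA.map _ hh))

lemma kap_xp {h : W.H X} {p i : ℕ} (α : W.H A) {x : W.H X} (hx : x ∈ PH W X i) {β : W.H B}
    (hβ : β ∈ PH W B p) (y : W.H X) :
    kap W A B X h (xp W (xp W α x) (xp W β y)) =
      ((-1 : W.K) ^ (i * p) * W.tr X (x * y * h)) • xp W α β := by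
  have e1 : jm A B X ≫ fst _ _ = Obj.lift (fst _ _ ≫ fst _ _) (snd _ _) := Obj.lift_fst _ _
  have e2 : jm A B X ≫ snd _ _ = Obj.lift (fst _ _ ≫ snd _ _) (snd _ _) := Obj.lift_snd _ _
  have h1 : W.map (jm A B X) (xp W (xp W α x) (xp W β y)) =
      (W.map (fst (A.prod B) X) (W.map (fst A B) α) * W.map (snd (A.prod B) X) x) *
      (W.map (fst (A.prod B) X) (W.map (snd A B) β) * W.map (snd (A.prod B) X) y) := by
    rw [xp, map_mul (W.map (jm A B X)), ← W.map_comp, ← W.map_comp, e1, e2, xp, xp,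
      map_mul (W.map (Obj.lift _ _)), map_mul (W.map (Obj.lift _ _)), ← W.map_comp, ← W.map_comp,
      ← W.map_comp, ← W.map_comp, Obj.lift_fst, Obj.lift_snd, Obj.lift_fst, Obj.lift_snd,
      W.map_comp, W.map_comp]
  have h2 : (W.map (fst (A.prod B) X) (W.map (fst A B) α) * W.map (snd (A.prod B) X) x) *
      (W.map (fst (A.prod B) X) (W.map (snd A B) β) * W.map (snd (A.prod B) X) y) *
      W.map (snd (A.prod B) X) h = (-1 : W.K) ^ (i * p) • xp W (xp W α β) (x * y * h) := by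
    have h3 := PH.comm (PH.map (snd (A.prod B) X) hx) (PH.map (fst (A.prod B) X)
      (PH.map (snd A B) hβ))
    calc _ = W.map (fst (A.prod B) X) (W.map (fst A B) α) * (W.map (snd (A.prod B) X) x *
          W.map (fst (A.prod B) X) (W.map (snd A B) β)) * (W.map (snd (A.prod B) X) y *
          W.map (snd (A.prod B) X) h) := by simp only [mul_assoc]
      _ = _ := by
        rw [h3, mul_smul_comm, smul_mul_assoc, xp, xp, map_mul (W.map (fst (A.prod B) X)),
          map_mul (W.map (snd (A.prod B) X)), map_mul (W.map (snd (A.prod B) X))]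
        simp only [mul_assoc]
  rw [kap_apply, h1, h2, map_smul, push_fst, smul_smul]

/-- The iterated contraction. -/
noncomputable def kapN (W : WeilCohomology.{u, v} ops) (X : 𝒱.Obj) (h : W.H X) :
    ∀ m, W.H ((pw X m).prod (pw X m)) →ₗ[W.K] W.H (X.prod X)
  | 0 => LinearMap.id
  | m + 1 => kapN W X h m ∘ₗ kap W (pw X m) (pw X m) X h

lemma kapN_mem {h : W.H X} (hh : h ∈ KA W X) : ∀ (m : ℕ) {c : W.H ((pw X m).prod (pw X m))},
    c ∈ KA W _ → kapN W X h m c ∈ KA W (X.prod X)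
  | 0, _, hc => hc
  | m + 1, _, hc => kapN_mem hh m (kap_mem (A := pw X m) (B := pw X m) hh hc)

lemma kapN_wd (W : WeilCohomology.{u, v} ops) (X : 𝒱.Obj) (h : W.H X) (i : ℕ) :
    ∀ m, ∃ ε : W.K, ε ≠ 0 ∧ ∀ x y : Fin (m + 1) → W.H X, (∀ r, x r ∈ W.gr X i) →
      (∀ r, y r ∈ W.gr X i) → kapN W X h m (xp W (wd W X m x) (wd W X m y)) =
        (ε * ∏ r : Fin m, W.tr X (x r.succ * y r.succ * h)) • xp W (x 0) (y 0)
  | 0 => ⟨1, one_ne_zero, fun x y _ _ => by
      rw [wd_zero, wd_zero, Fin.prod_univ_zero, mul_one, one_smul]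
      rfl⟩
  | m + 1 => by
    obtain ⟨ε, hε, H⟩ := kapN_wd W X h i m
    refine ⟨ε * (-1 : W.K) ^ (i * (i * (m + 1))),
      mul_ne_zero hε (pow_ne_zero _ (neg_ne_zero.2 one_ne_zero)), fun x y hx hy => ?_⟩
    have h1 : kapN W X h (m + 1) (xp W (wd W X (m + 1) x) (wd W X (m + 1) y)) =
        kapN W X h m (kap W (pw X m) (pw X m) X h
          (xp W (xp W (X := pw X m) (wd W X m fun r => x r.castSucc) (x (Fin.last _)))
            (xp W (X := pw X m) (wd W X m fun r => y r.castSucc) (y (Fin.last _))))) := by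
      rw [wd_succ, wd_succ]
      rfl
    rw [h1, kap_xp (A := pw X m) (B := pw X m) _ (PH.of (hx _))
      (PH.of (wd_mem m _ fun r => hy _)), map_smul, H _ _ (fun r => hx _) (fun r => hy _),
      smul_smul, Fin.prod_univ_castSucc]
    congr 1
    simp only [Fin.succ_last, Fin.succ_castSucc]
    ring

end Pool.Agent.R910.Det
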