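import Pool.Agent.R910.Det.Nec
import Pool.Agent.W539.Ker.Ops

/-!
# The determinant of the cohomology is algebraic if the Lefschetz standard conjecture holds
-/

open CategoryTheory AlgebraicGeometry

universe u v

namespace Pool.Agent.R910.Det

open Module
open Pool.Agent.H914 Pool.Agent.H914.VarClass Pool.Agent.H914.VarClass.Obj
  Pool.Agent.H914.WeilCohomology Pool.Agent.Y133.Half Pool.Agent.W552 Pool.Agent.H281R3.HT

variable {k : Type u} [Field k] {𝒱 : VarClass k} {ops : CycleOps 𝒱}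
  {W : WeilCohomology.{u, v} ops} {X Y A B : 𝒱.Obj}

/-- The external powers of a class on `X × X`. -/
noncomputable def Th (W : WeilCohomology.{u, v} ops) (X : 𝒱.Obj) (c : W.H (X.prod X)) :
    ∀ m, W.H ((pw X m).prod (pw X m))
  | 0 => c
  | m + 1 => W.map (q1 (pw X m) X) (Th W X c m) * W.map (q2 (pw X m) X) c

lemma Th_AS {c : W.H (X.prod X)} (hc : AS W _ c) : ∀ m, AS W _ (Th W X c m)
  | 0 => hc
  | m + 1 => ((Th_AS hc m).map _).mul (hc.map _)

/-- Functions on `Fin (n + 1)` in terms of the last value. -/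
lemma sum_snoc {n : ℕ} {J M : Type*} [Fintype J] [AddCommMonoid M] (F : (Fin (n + 1) → J) → M) :
    ∑ f, F f = ∑ g : Fin n → J, ∑ j, F (Fin.snoc g j) := by
  rw [← Finset.sum_product']
  refine Fintype.sum_equiv ((Fin.snocEquiv fun _ => J).symm.trans (Equiv.prodComm _ _)) _ _ ?_
  intro f
  congr 1
  exact ((Fin.snocEquiv fun _ => J).apply_symm_apply f).symm

lemma q_xp {p i : ℕ} (a a' : W.H A) (ha' : a' ∈ PH W A p) {b : W.H B} (hb : b ∈ PH W B i)
    (b' : W.H B) : W.map (q1 A B) (xp W a a') * W.map (q2 A B) (xp W b b') =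
      (-1 : W.K) ^ (p * i) • xp W (xp W a b) (xp W a' b') := by
  rw [xp, q1_tmul, xp, q2_tmul]
  have h1 := PH.comm (PH.map (snd (A.prod B) (A.prod B)) (PH.map (fst A B) ha'))
    (PH.map (fst (A.prod B) (A.prod B)) (PH.map (snd A B) hb))
  calc _ = W.map (fst _ _) (W.map (fst A B) a) * (W.map (snd _ _) (W.map (fst A B) a') *
        W.map (fst _ _) (W.map (snd A B) b)) * W.map (snd _ _) (W.map (snd A B) b') := by
          simp only [mul_assoc]
    _ = _ := by
      rw [h1, mul_smul_comm, smul_mul_assoc, xp, xp, xp, map_mul (W.map (fst _ _)),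
        map_mul (W.map (snd _ _))]
      simp only [mul_assoc]

lemma Th_eq (W : WeilCohomology.{u, v} ops) (X : 𝒱.Obj) (i : ℕ) (J : Type) [Fintype J] :
    ∀ m, ∃ ε : W.K, ε ≠ 0 ∧ ∀ x y : J → W.H X, (∀ r, x r ∈ W.gr X i) → (∀ r, y r ∈ W.gr X i) →
      Th W X (∑ j, xp W (x j) (y j)) m =
        ε • ∑ f : Fin (m + 1) → J, xp W (wd W X m (x ∘ f)) (wd W X m (y ∘ f))
  | 0 => ⟨1, one_ne_zero, fun x y _ _ => by
      rw [one_smul, Th]
      refine Fintype.sum_equiv (Equiv.funUnique (Fin 1) J).symm _ _ fun j => ?_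
      rw [wd_zero, wd_zero]
      rfl⟩
  | m + 1 => by
    obtain ⟨ε, hε, H⟩ := Th_eq W X i J m
    refine ⟨ε * (-1 : W.K) ^ (i * (m + 1) * i),
      mul_ne_zero hε (pow_ne_zero _ (neg_ne_zero.2 one_ne_zero)), fun x y hx hy => ?_⟩
    have h0 : Th W X (∑ j, xp W (x j) (y j)) (m + 1) =
        W.map (q1 (pw X m) X) (Th W X (∑ j, xp W (x j) (y j)) m) *
          W.map (q2 (pw X m) X) (∑ j, xp W (x j) (y j)) := rfl
    rw [h0, H x y hx hy, map_smul, map_sum (W.map (q1 (pw X m) X)),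
      map_sum (W.map (q2 (pw X m) X)), smul_mul_assoc, Finset.sum_mul_sum,
      sum_snoc (fun f : Fin (m + 1 + 1) → J => xp W (wd W X (m + 1) (x ∘ f))
        (wd W X (m + 1) (y ∘ f))), mul_smul]
    congr 1
    rw [Finset.smul_sum]
    apply Finset.sum_congr rfl
    intro f _
    rw [Finset.smul_sum]
    apply Finset.sum_congr rfl
    intro j _
    have ex : ∀ z : J → W.H X, wd W X (m + 1) (z ∘ Fin.snoc f j) =
        xp W (X := pw X m) (wd W X m (z ∘ f)) (z j) := by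
      intro z
      rw [wd_succ]
      congr 1
      · congr 1
        funext r
        simp
      · simp
    have e := q_xp (W := W) (A := pw X m) (B := X) (wd W X m (x ∘ f)) (wd W X m (y ∘ f))
      (PH.of (wd_mem m (y ∘ f) fun r => hy _)) (PH.of (hx j)) (y j)
    rw [ex x, ex y]
    exact e

/-- The action of a permutation on the first factor. -/
noncomputable def ms (X : 𝒱.Obj) (m : ℕ) (σ : Equiv.Perm (Fin (m + 1))) :
    (pw X m).prod (pw X m) ⟶ (pw X m).prod (pw X m) :=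
  Obj.lift (fst _ _ ≫ tau X m σ) (snd _ _)

lemma ms_xp (m : ℕ) (σ : Equiv.Perm (Fin (m + 1))) (a b : W.H (pw X m)) :
    W.map (ms X m σ) (xp W a b) = xp W (W.map (tau X m σ) a) b := by
  rw [xp, map_mul (W.map (ms X m σ)), ← W.map_comp, ← W.map_comp, ms, Obj.lift_fst, Obj.lift_snd,
    W.map_comp]
  rfl

lemma sgp_inv {K : Type*} [Field K] (i : ℕ) {n : ℕ} (σ : Equiv.Perm (Fin n)) :
    sgp K i σ⁻¹ = sgp K i σ := by
  rw [sgp, sgp, Equiv.Perm.sign_inv]

/-- The antisymmetrization of an external product. -/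
lemma anti_wd {i : ℕ} (m : ℕ) (x : Fin (m + 1) → W.H X) (hx : ∀ r, x r ∈ W.gr X i) :
    ∑ σ : Equiv.Perm (Fin (m + 1)), sgp W.K (i + 1) σ • W.map (tau X m σ) (wd W X m x) =
      alt W X m x := by
  rw [alt_apply]
  refine Fintype.sum_equiv (Equiv.inv _) _ _ fun σ => ?_
  have h1 := tau_wd m (x ∘ ⇑σ⁻¹) (fun r => hx _) σ
  have h2 : (x ∘ ⇑σ⁻¹) ∘ ⇑σ = x := by
    funext r
    simp
  rw [h2] at h1
  rw [h1, smul_smul, sgp_succ, Equiv.inv_apply, Equiv.Perm.sign_inv]

/-- The antisymmetrization of the external power of a class. -/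
lemma anti_Th (W : WeilCohomology.{u, v} ops) (X : 𝒱.Obj) (i m : ℕ) :
    ∃ ε : W.K, ε ≠ 0 ∧ ∀ x y : Fin (m + 1) → W.H X, (∀ r, x r ∈ W.gr X i) →
      (∀ r, y r ∈ W.gr X i) → ∑ σ : Equiv.Perm (Fin (m + 1)), sgp W.K (i + 1) σ •
        W.map (ms X m σ) (Th W X (∑ j, xp W (x j) (y j)) m) =
          ε • xp W (alt W X m x) (alt W X m y) := by
  classical
  obtain ⟨ε, hε, H⟩ := Th_eq W X i (Fin (m + 1)) m
  refine ⟨ε, hε, fun x y hx hy => ?_⟩
  have h1 : ∀ σ : Equiv.Perm (Fin (m + 1)), sgp W.K (i + 1) σ •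
        W.map (ms X m σ) (Th W X (∑ j, xp W (x j) (y j)) m) =
      ε • ∑ f : Fin (m + 1) → Fin (m + 1), xp W (sgp W.K (i + 1) σ •
        W.map (tau X m σ) (wd W X m (x ∘ f))) (wd W X m (y ∘ f)) := by
    intro σ
    rw [H x y hx hy, map_smul, map_sum, smul_comm, Finset.smul_sum]
    congr 1
    refine Finset.sum_congr rfl fun f _ => ?_
    rw [ms_xp, xp_smul_left]
  rw [Finset.sum_congr rfl fun σ _ => h1 σ, ← Finset.smul_sum, Finset.sum_comm]
  congr 1
  have h2 : ∀ f : Fin (m + 1) → Fin (m + 1), ∑ σ : Equiv.Perm (Fin (m + 1)),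
      xp W (sgp W.K (i + 1) σ • W.map (tau X m σ) (wd W X m (x ∘ f))) (wd W X m (y ∘ f)) =
        xp W (alt W X m (x ∘ f)) (wd W X m (y ∘ f)) := by
    intro f
    rw [← anti_wd m (x ∘ f) (fun r => hx _)]
    simp only [xp, map_sum, Finset.sum_mul]
  rw [Finset.sum_congr rfl fun f _ => h2 f]
  have h3 : ∀ f : Fin (m + 1) → Fin (m + 1), ¬ Function.Injective f →
      xp W (alt W X m (x ∘ f)) (wd W X m (y ∘ f)) = 0 := by
    intro f hf
    have h4 : alt W X m (x ∘ f) = 0 := by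
      apply AlternatingMap.map_eq_zero_of_not_injective
      intro h5
      exact hf (Function.Injective.of_comp h5)
    rw [h4, xp, map_zero, zero_mul]
  have h5 : ∑ f : Fin (m + 1) → Fin (m + 1), xp W (alt W X m (x ∘ f)) (wd W X m (y ∘ f)) =
      ∑ σ : Equiv.Perm (Fin (m + 1)), xp W (alt W X m (x ∘ σ)) (wd W X m (y ∘ σ)) := by
    symm
    refine Finset.sum_bij_ne_zero (fun σ _ _ => (σ : Fin (m + 1) → Fin (m + 1)))
      (fun _ _ _ => Finset.mem_univ _) (fun σ _ _ τ _ _ h => Equiv.ext (congrFun h)) ?_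
      (fun _ _ _ => rfl)
    intro f _ hf
    have hfi : Function.Injective f := by
      by_contra h6
      exact hf (h3 f h6)
    exact ⟨Equiv.ofBijective f (Finite.injective_iff_bijective.1 hfi), Finset.mem_univ _, hf, rfl⟩
  rw [h5, alt_apply m y]
  simp only [alt_perm, xp, map_sum, map_smul, Finset.mul_sum, smul_mul_assoc, mul_smul_comm]

end Pool.Agent.R910.Det
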