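import Pool.Agent.R910.Det.Suff
import Pool.Agent.W552.Main

/-!
# From the Lefschetz standard conjecture to the determinant of the cohomology
-/

open CategoryTheory AlgebraicGeometry

universe u v

namespace Pool.Agent.R910.Det

open Module
open Pool.Agent.H914 Pool.Agent.H914.VarClass Pool.Agent.H914.VarClass.Obj
  Pool.Agent.H914.WeilCohomology Pool.Agent.Y133.Half

variable {k : Type u} [Field k] {𝒱 : VarClass k} {ops : CycleOps 𝒱}
  {W : WeilCohomology.{u, v} ops} {X Y A B : 𝒱.Obj}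

/-- Antisymmetrized products of classes in `H^i` in terms of a basis. -/
lemma alt_basis {i m : ℕ} (x : Basis (Fin (m + 1)) W.K (W.gr X i))
    (v : Fin (m + 1) → W.gr X i) : alt W X m (fun r => (v r : W.H X)) =
      x.det v • alt W X m (fun r => (x r : W.H X)) := by
  have h : (alt W X m).compLinearMap (W.gr X i).subtype =
      (LinearMap.toSpanSingleton W.K _ (alt W X m (fun r => (x r : W.H X)))).compAlternatingMap
        x.det := by
    refine Basis.ext_alternating x fun f hf => ?_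
    have hb : Function.Bijective f := Finite.injective_iff_bijective.1 hf
    obtain ⟨σ, rfl⟩ : ∃ σ : Equiv.Perm (Fin (m + 1)), f = σ := ⟨Equiv.ofBijective f hb, rfl⟩
    have h1 : (x.det fun r => x (σ r)) = ((Equiv.Perm.sign σ : ℤ) : W.K) := by
      have h2 := x.det.map_perm x σ
      rw [x.det_self, Units.smul_def, ← Int.cast_smul_eq_zsmul W.K, smul_eq_mul, mul_one] at h2
      exact h2
    rw [LinearMap.compAlternatingMap_apply, h1, LinearMap.toSpanSingleton_apply, ← alt_perm]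
    rfl
  have h1 := congrArg (fun F => F v) h
  exact h1

/-- The space `detSq'` is at most one-dimensional. -/
lemma detSq_le {i m : ℕ} (x y : Basis (Fin (m + 1)) W.K (W.gr X i)) {c : W.H _}
    (hc : c ∈ detSq' W X i m) : ∃ t : W.K, c = t • xp W (alt W X m (fun r => (x r : W.H X)))
      (alt W X m (fun r => (y r : W.H X))) := by
  rw [detSq'] at hc
  induction hc using Submodule.span_induction with
  | mem c hc =>
    obtain ⟨v, w, hv, hw, rfl⟩ := hc
    refine ⟨x.det (fun r => ⟨v r, hv r⟩) * y.det (fun r => ⟨w r, hw r⟩), ?_⟩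
    have h1 := alt_basis x (fun r => ⟨v r, hv r⟩)
    have h2 := alt_basis y (fun r => ⟨w r, hw r⟩)
    rw [← alt_eq, ← alt_eq, h1, h2, map_smul, map_smul, smul_mul_smul_comm]
    rfl
  | zero => exact ⟨0, (zero_smul _ _).symm⟩
  | add a b _ _ ha hb =>
    obtain ⟨t, rfl⟩ := ha
    obtain ⟨t', rfl⟩ := hb
    exact ⟨t + t', (add_smul _ _ _).symm⟩
  | smul s a _ ha =>
    obtain ⟨t, rfl⟩ := ha
    exact ⟨s * t, smul_smul _ _ _⟩

lemma mem_detSq {i m : ℕ} {x y : Fin (m + 1) → W.H X} (hx : ∀ r, x r ∈ W.gr X i)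
    (hy : ∀ r, y r ∈ W.gr X i) : xp W (alt W X m x) (alt W X m y) ∈ detSq' W X i m := by
  rw [alt_eq, alt_eq]
  exact Submodule.subset_span ⟨x, y, hx, hy, rfl⟩

/-- The criterion, in one degree. -/
lemma inj_of_det {D : X.Cycles} (hD : X.IsCyc 1 D) (hHL : HardLefschetz W X D) {i m : ℕ}
    (hi : i ≤ X.dim) (hb : W.betti X i = m + 1) {c : W.H _} (hc : c ∈ KA W _) (hc0 : c ≠ 0)
    (hcd : c ∈ detSq' W X i m) : ∃ ν ∈ KOp W X X (-((X.dim - i : ℕ) : ℤ)),
      ∀ a ∈ W.gr X (X.dim + (X.dim - i)), ν a = 0 → a = 0 := by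
  obtain ⟨x, y, hxy⟩ := exists_dual hD hHL hi hb
  obtain ⟨t, ht⟩ := detSq_le x y hcd
  have ht0 : t ≠ 0 := by
    rintro rfl
    rw [zero_smul] at ht
    exact hc0 ht
  have h1 : xp W (alt W X m (fun r => (x r : W.H X))) (alt W X m (fun r => (y r : W.H X))) ∈
      KA W _ := by
    have : xp W (alt W X m (fun r => (x r : W.H X))) (alt W X m (fun r => (y r : W.H X))) =
        t⁻¹ • c := by
      rw [ht, smul_smul, inv_mul_cancel₀ ht0, one_smul]
    rw [this]
    exact Submodule.smul_mem _ _ hc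
  obtain ⟨ε, hε, H⟩ := contr_alt W X (W.cl X D ^ (X.dim - i)) i m
  have h2 := H (fun r => (x r : W.H X)) (fun r => (y r : W.H X)) (fun r => (x r).2)
    (fun r => (y r).2) hxy
  have hDm : W.cl X D ^ (X.dim - i) ∈ KA W X := by
    have hD1 : W.cl X D ∈ KA W X := KA.of (W552.AS.of ⟨D, hD, rfl⟩)
    generalize X.dim - i = e
    induction e with
    | zero => rw [pow_zero]; exact KA.one
    | succ e ih => rw [pow_succ]; exact KA.mul ih hD1
  have h3 := kapN_mem hDm m h1
  rw [h2] at h3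
  set s := ∑ σ : Equiv.Perm (Fin (m + 1)), xp W (x (σ 0) : W.H X) (y (σ 0) : W.H X) with hs
  have h4 : s ∈ KA W (X.prod X) := by
    have : s = ε⁻¹ • (ε • s) := by rw [smul_smul, inv_mul_cancel₀ hε, one_smul]
    rw [this]
    exact Submodule.smul_mem _ _ h3
  have h5 : s ∈ W.gr (X.prod X) (2 * i) := by
    rw [two_mul]
    exact Submodule.sum_mem _ fun σ _ => W.mul_mem (W.map_mem _ (x _).2) (W.map_mem _ (y _).2)
  refine ⟨W.corr s, mem_KOp_iff.2 ⟨s, ?_, rfl⟩, ?_⟩
  · have h6 := KA.span h4 h5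
    rwa [show ((i : ℕ) : ℤ) = X.dim + -((X.dim - i : ℕ) : ℤ) by omega] at h6
  · intro a ha h0
    rw [show X.dim + (X.dim - i) = 2 * X.dim - i by omega] at ha
    exact corr_sum_inj hi hxy ha h0

/-- The Lefschetz standard conjecture follows from the algebraicity of the lines `det ⊗ det`. -/
theorem lefschetzB_of_det {D : X.Cycles} (hD : X.IsCyc 1 D) (hHL : HardLefschetz W X D)
    (h : ∀ i < X.dim, ∀ m, W.betti X i = m + 1 →
      ∃ c ∈ KA W ((pw X m).prod (pw X m)), c ≠ 0 ∧ c ∈ detSq' W X i m) : LefschetzB W X D := by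
  apply lefschetzB_of_inj hD hHL
  intro c hc
  rcases Nat.eq_zero_or_pos c with rfl | hc0
  · refine ⟨LinearMap.id, ?_, fun a _ h => h⟩
    simpa using KOp.id (W := W) X
  · rcases Nat.eq_zero_or_pos (W.betti X (X.dim - c)) with hb | hb
    · refine ⟨0, Submodule.zero_mem _, fun a ha _ => ?_⟩
      obtain ⟨b, hb', hb''⟩ := (hHL (X.dim - c) (by omega)).2 a
        (by rw [show 2 * X.dim - (X.dim - c) = X.dim + c by omega]; exact ha)
      have h1 : W.gr X (X.dim - c) = ⊥ := Submodule.finrank_eq_zero.1 hb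
      rw [h1] at hb'
      rw [← hb'', (Submodule.mem_bot _).1 hb', map_zero]
    · obtain ⟨m, hm⟩ : ∃ m, W.betti X (X.dim - c) = m + 1 := ⟨_, (Nat.succ_pred_eq_of_pos hb).symm⟩
      obtain ⟨d, hd, hd0, hdd⟩ := h (X.dim - c) (by omega) m hm
      obtain ⟨ν, hν, hinj⟩ := inj_of_det hD hHL (by omega) hm hd hd0 hdd
      rw [show X.dim - (X.dim - c) = c by omega] at hν hinj
      exact ⟨ν, hν, hinj⟩

end Pool.Agent.R910.Det
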