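import Pool.Agent.Y133.Half.PwDefs
import Pool.Agent.H914R2.KDefs

/-!
# The determinants of the cohomology of a variety: definitions for the statements
-/

open CategoryTheory AlgebraicGeometry

universe u v

namespace Pool.Agent.R910.Det

open Pool.Agent.H914 Pool.Agent.H914.VarClass Pool.Agent.H914.VarClass.Obj
  Pool.Agent.H914.WeilCohomology Pool.Agent.Y133.Half

variable {k : Type u} [Field k] {𝒱 : VarClass k} {ops : CycleOps 𝒱}

/-- The projections of `X ^ (m + 1)` to `X`. -/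
noncomputable def pr (X : 𝒱.Obj) : ∀ m, Fin (m + 1) → (pw X m ⟶ X)
  | 0, _ => 𝟙 X
  | m + 1, i => Fin.lastCases (motive := fun _ => pw X (m + 1) ⟶ X)
      (snd (pw X m) X) (fun j => fst (pw X m) X ≫ pr X m j) i

/-- `X ^ (m + 1) × X ^ (m + 1)`. -/
noncomputable def pw2 (X : 𝒱.Obj) (m : ℕ) : 𝒱.Obj := (pw X m).prod (pw X m)

/-- The external product `pr_0^* (v (σ 0)) ⋯ pr_m^* (v (σ m))` in `H(X ^ (m + 1))`. -/
noncomputable def wedgeTerm (W : WeilCohomology.{u, v} ops) (X : 𝒱.Obj) (m : ℕ)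
    (v : Fin (m + 1) → W.H X) (σ : Equiv.Perm (Fin (m + 1))) : W.H (pw X m) :=
  (List.ofFn fun r => W.map (pr X m r) (v (σ r))).prod

/-- The antisymmetrized external product of the classes `v 0`, ..., `v m` on `X`: the sum over all
permutations `σ` of `sgn σ` times `pr_0^* (v (σ 0)) ⋯ pr_m^* (v (σ m))`. -/
noncomputable def wedge (W : WeilCohomology.{u, v} ops) (X : 𝒱.Obj) (m : ℕ)
    (v : Fin (m + 1) → W.H X) : W.H (pw X m) :=
  ∑ σ : Equiv.Perm (Fin (m + 1)), ((Equiv.Perm.sign σ : ℤ) : W.K) • wedgeTerm W X m v σ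

/-- The external product of two classes on `X ^ (m + 1)`. -/
noncomputable def ext2 (W : WeilCohomology.{u, v} ops) (X : 𝒱.Obj) (m : ℕ)
    (x y : W.H (pw X m)) : W.H (pw2 X m) :=
  W.map (fst (pw X m) (pw X m)) x * W.map (snd (pw X m) (pw X m)) y

/-- All the classes `v 0`, ..., `v m` have degree `i`. -/
def AllIn (W : WeilCohomology.{u, v} ops) (X : 𝒱.Obj) (i m : ℕ) (v : Fin (m + 1) → W.H X) :
    Prop :=
  ∀ r, v r ∈ W.gr X i

/-- `c` is the external product of two antisymmetrized external products of `m + 1` classes in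
`H^i(X)`. -/
def IsDetGen (W : WeilCohomology.{u, v} ops) (X : 𝒱.Obj) (i m : ℕ) (c : W.H (pw2 X m)) : Prop :=
  ∃ v w : Fin (m + 1) → W.H X, AllIn W X i m v ∧ AllIn W X i m w ∧
    ext2 W X m (wedge W X m v) (wedge W X m w) = c

/-- The space `det H^i(X) ⊗ det H^i(X)` in the cohomology of `X ^ (m + 1) × X ^ (m + 1)`, where
`m + 1 = dim H^i(X)`: the span of the external products of two antisymmetrized external
products of `m + 1` classes in `H^i(X)`. -/
noncomputable def detSq (W : WeilCohomology.{u, v} ops) (X : 𝒱.Obj) (i m : ℕ) :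
    Submodule W.K (W.H (pw2 X m)) :=
  Submodule.span W.K {c | IsDetGen W X i m c}

/-- The dimension of the space `det H^i(X) ⊗ det H^i(X)`. -/
noncomputable def detSqDim (W : WeilCohomology.{u, v} ops) (X : 𝒱.Obj) (i m : ℕ) : ℕ :=
  Module.finrank W.K (detSq W X i m)

/-- The class of a cycle. -/
noncomputable def cls (W : WeilCohomology.{u, v} ops) (X : 𝒱.Obj) (z : X.Cycles) : W.H X :=
  W.cl X z

/-- The space `det H^i(X) ⊗ det H^i(X)`, where `dim H^i(X) = m + 1`, contains the nonzero class of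
an algebraic cycle of codimension `i (m + 1)` on `X ^ (m + 1) × X ^ (m + 1)`. -/
def DetSqAlgebraic (W : WeilCohomology.{u, v} ops) (X : 𝒱.Obj) (i m : ℕ) : Prop :=
  ∃ z, (pw2 X m).IsCyc (i * (m + 1)) z ∧ cls W (pw2 X m) z ≠ 0 ∧
    cls W (pw2 X m) z ∈ detSq W X i m

end Pool.Agent.R910.Det
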