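import Pool.Agent.R910.Det.Contr
import Pool.Agent.H914R2.GBasic

/-!
# From the determinant of the cohomology to the Lefschetz standard conjecture
-/

open CategoryTheory AlgebraicGeometry

universe u v

namespace Pool.Agent.R910.Det

open Module
open Pool.Agent.H914 Pool.Agent.H914.VarClass Pool.Agent.H914.VarClass.Obj
  Pool.Agent.H914.WeilCohomology Pool.Agent.Y133.Half

variable {k : Type u} [Field k] {𝒱 : VarClass k} {ops : CycleOps 𝒱}
  {W : WeilCohomology.{u, v} ops} {X Y A B : 𝒱.Obj}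

/-- The form `tr (x y h)` on `H^i`. -/
noncomputable def gf (W : WeilCohomology.{u, v} ops) (X : 𝒱.Obj) (i : ℕ) (h : W.H X) :
    LinearMap.BilinForm W.K (W.gr X i) :=
  LinearMap.mk₂ W.K (fun x y => W.tr X ((x : W.H X) * (y : W.H X) * h))
    (fun x x' y => by rw [Submodule.coe_add, add_mul, add_mul, map_add])
    (fun c x y => by rw [Submodule.coe_smul, smul_mul_assoc, smul_mul_assoc, map_smul])
    (fun x y y' => by rw [Submodule.coe_add, mul_add, add_mul, map_add])
    (fun c x y => by rw [Submodule.coe_smul, mul_smul_comm, smul_mul_assoc, map_smul])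

lemma gf_apply {i : ℕ} {h : W.H X} (x y : W.gr X i) :
    gf W X i h x y = W.tr X ((x : W.H X) * (y : W.H X) * h) := rfl

/-- Poincare duality in complementary degrees. -/
lemma eq_zero_of_tr {i j : ℕ} (hij : i + j = 2 * X.dim) {z : W.H X} (hz : z ∈ W.gr X j)
    (h : ∀ x ∈ W.gr X i, W.tr X (x * z) = 0) : z = 0 := by
  apply W.nondeg
  intro b
  refine gr_induction (W.isInternal X) (p := fun b => W.tr X (z * b) = 0) ?_ ?_ b
  · intro l b hb
    by_cases hl : l = i
    · subst hl
      rw [W.comm hz hb, map_smul, h b hb, smul_zero]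
    · exact W.tr_eq_zero (W.mul_mem hz hb) (by omega)
  · intro b b' hb hb'
    rw [mul_add, map_add, hb, hb', add_zero]

lemma pow_mem {D : X.Cycles} (hD : X.IsCyc 1 D) (c : ℕ) : W.cl X D ^ c ∈ W.gr X (2 * c) := by
  induction c with
  | zero => simpa using W.one_mem X
  | succ c ih =>
    rw [pow_succ, mul_add, mul_one]
    have := W.mul_mem ih (W.cl_mem hD)
    rwa [mul_one] at this

lemma gf_symm {i : ℕ} {D : X.Cycles} {c : ℕ} (x y : W.gr X i) :
    gf W X i (W.cl X D ^ c) x y = (-1 : W.K) ^ (i * i) * gf W X i (W.cl X D ^ c) y x := by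
  rw [gf_apply, gf_apply, W.comm x.2 y.2, smul_mul_assoc, map_smul, smul_eq_mul]

lemma gf_nondeg {D : X.Cycles} (hD : X.IsCyc 1 D) (hHL : HardLefschetz W X D) {i : ℕ}
    (hi : i ≤ X.dim) : (gf W X i (W.cl X D ^ (X.dim - i))).Nondegenerate := by
  have hl : ∀ x : W.gr X i, (∀ y, gf W X i (W.cl X D ^ (X.dim - i)) x y = 0) → x = 0 := by
    intro x hx
    apply Subtype.ext
    apply (hHL i hi).1 _ x.2
    rw [LinearMap.pow_mulLeft, LinearMap.mulLeft_apply]
    have hmem : W.cl X D ^ (X.dim - i) * (x : W.H X) ∈ W.gr X (2 * X.dim - i) := by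
      have := W.mul_mem (pow_mem (W := W) hD (X.dim - i)) x.2
      rwa [show 2 * (X.dim - i) + i = 2 * X.dim - i by omega] at this
    refine eq_zero_of_tr (i := i) (by omega) hmem ?_
    intro y hy
    have h1 := hx ⟨y, hy⟩
    rw [gf_apply] at h1
    rw [W.even_comm (pow_mem (W := W) hD _) (x : W.H X), ← mul_assoc, W.comm hy x.2,
      smul_mul_assoc, map_smul, h1, smul_zero]
  refine ⟨hl, fun y hy => hl y fun x => ?_⟩
  rw [gf_symm, hy x, mul_zero]

/-- The contraction of the antisymmetrized classes of dual bases. -/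
lemma contr_alt (W : WeilCohomology.{u, v} ops) (X : 𝒱.Obj) (h : W.H X) (i m : ℕ) :
    ∃ ε : W.K, ε ≠ 0 ∧ ∀ x y : Fin (m + 1) → W.H X, (∀ r, x r ∈ W.gr X i) →
      (∀ r, y r ∈ W.gr X i) → (∀ r s, W.tr X (x r * y s * h) = if s = r then 1 else 0) →
      kapN W X h m (xp W (alt W X m x) (alt W X m y)) =
        ε • ∑ σ : Equiv.Perm (Fin (m + 1)), xp W (x (σ 0)) (y (σ 0)) := by
  classical
  obtain ⟨ε, hε, H⟩ := kapN_wd W X h i m
  refine ⟨ε, hε, fun x y hx hy hxy => ?_⟩
  have h1 : xp W (alt W X m x) (alt W X m y) = ∑ σ : Equiv.Perm (Fin (m + 1)),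
      ∑ τ : Equiv.Perm (Fin (m + 1)), (((Equiv.Perm.sign σ : ℤ) : W.K) *
        ((Equiv.Perm.sign τ : ℤ) : W.K)) • xp W (wd W X m (x ∘ σ)) (wd W X m (y ∘ τ)) := by
    rw [alt_apply, alt_apply, xp, map_sum, map_sum, Finset.sum_mul_sum]
    refine Finset.sum_congr rfl fun σ _ => Finset.sum_congr rfl fun τ _ => ?_
    rw [map_smul, map_smul, smul_mul_smul_comm]
    rfl
  rw [h1, map_sum, Finset.smul_sum]
  refine Finset.sum_congr rfl fun σ _ => ?_
  rw [map_sum, Finset.sum_eq_single σ]
  · rw [map_smul, sign_mul_self, one_smul, H (x ∘ σ) (y ∘ σ) (fun r => hx _) (fun r => hy _)]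
    have h2 : ∏ r : Fin m, W.tr X ((x ∘ σ) r.succ * (y ∘ σ) r.succ * h) = 1 := by
      apply Finset.prod_eq_one
      intro r _
      rw [Function.comp_apply, Function.comp_apply, hxy, if_pos rfl]
    rw [h2, mul_one]
    rfl
  · intro τ _ hτ
    rw [map_smul, H (x ∘ σ) (y ∘ τ) (fun r => hx _) (fun r => hy _)]
    have h2 : ∏ r : Fin m, W.tr X ((x ∘ σ) r.succ * (y ∘ τ) r.succ * h) = 0 := by
      by_contra h3
      apply hτ
      have h3 := Finset.prod_ne_zero_iff.1 h3
      have h4 : ∀ r : Fin m, τ r.succ = σ r.succ := by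
        intro r
        have h5 := h3 r (Finset.mem_univ _)
        rw [Function.comp_apply, Function.comp_apply, hxy] at h5
        by_contra h6
        exact h5 (if_neg h6)
      apply Equiv.ext
      intro s
      refine Fin.cases ?_ h4 s
      by_contra h7
      obtain ⟨t, ht⟩ := σ.surjective (τ 0)
      rcases Fin.eq_zero_or_eq_succ t with h8 | ⟨r, rfl⟩
      · subst h8; exact h7 ht.symm
      · rw [← h4 r] at ht
        exact Fin.succ_ne_zero _ (τ.injective ht)
    rw [h2, mul_zero, zero_smul, smul_zero]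
  · intro h0; exact absurd (Finset.mem_univ _) h0

/-- The operator given by the contraction. -/
lemma corr_sum_inj {i m : ℕ} {h : W.H X} (hi : i ≤ X.dim) {x y : Basis (Fin (m + 1)) W.K (W.gr X i)}
    (hxy : ∀ r s, W.tr X ((x r : W.H X) * (y s : W.H X) * h) = if s = r then 1 else 0)
    {z : W.H X} (hz : z ∈ W.gr X (2 * X.dim - i))
    (h0 : W.corr (∑ σ : Equiv.Perm (Fin (m + 1)), xp W (x (σ 0) : W.H X) (y (σ 0) : W.H X)) z = 0) :
    z = 0 := by
  classical
  refine eq_zero_of_tr (i := i) (by omega) hz ?_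
  have h1 : ∀ r, W.tr X ((x r : W.H X) * z) = 0 := by
    intro r
    have h2 : W.corr (∑ σ : Equiv.Perm (Fin (m + 1)), xp W (x (σ 0) : W.H X)
        (y (σ 0) : W.H X)) z = (-1 : W.K) ^ (i * (2 * X.dim - i)) •
          ∑ σ : Equiv.Perm (Fin (m + 1)), (W.tr X ((x (σ 0) : W.H X) * z)) •
            (y (σ 0) : W.H X) := by
      have h3 : ∀ c : W.H (X.prod X), W.corr c z = corrL W X X c z := fun _ => rfl
      rw [h3, map_sum, LinearMap.sum_apply, Finset.smul_sum]
      refine Finset.sum_congr rfl fun σ _ => ?_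
      rw [← h3, corr_xp _ (PH.of (y (σ 0)).2) (PH.of hz), mul_smul]
    rw [h2, smul_eq_zero_iff_right (pow_ne_zero _ (neg_ne_zero.2 one_ne_zero))] at h0
    have h4 := congrArg (fun a => W.tr X ((x r : W.H X) * a * h)) h0
    simp only [Finset.mul_sum, Finset.sum_mul, map_sum, mul_smul_comm, smul_mul_assoc, map_smul,
      hxy, smul_eq_mul, mul_zero, zero_mul, map_zero, mul_ite, mul_one] at h4
    rw [← Finset.sum_filter, Finset.sum_congr rfl (g := fun _ => W.tr X ((x r : W.H X) * z))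
      (fun σ hσ => by rw [(Finset.mem_filter.1 hσ).2]), Finset.sum_const, nsmul_eq_mul] at h4
    rcases mul_eq_zero.1 h4 with h5 | h5
    · exfalso
      have h6 : ((Finset.univ.filter fun σ : Equiv.Perm (Fin (m + 1)) => σ 0 = r).card) = 0 := by
        exact_mod_cast h5
      rw [Finset.card_eq_zero] at h6
      have h7 : Equiv.swap 0 r ∈ Finset.univ.filter fun σ : Equiv.Perm (Fin (m + 1)) => σ 0 = r :=
        Finset.mem_filter.2 ⟨Finset.mem_univ _, Equiv.swap_apply_left _ _⟩
      rw [h6] at h7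
      exact absurd h7 (Finset.notMem_empty _)
    · exact h5
  intro a ha
  have h2 : (⟨a, ha⟩ : W.gr X i) ∈ Submodule.span W.K (Set.range x) := by
    rw [x.span_eq]; exact Submodule.mem_top
  have h3 : ∀ b : W.gr X i, b ∈ Submodule.span W.K (Set.range x) →
      W.tr X ((b : W.H X) * z) = 0 := by
    intro b hb
    induction hb using Submodule.span_induction with
    | mem b hb => obtain ⟨r, rfl⟩ := hb; exact h1 r
    | zero => simp
    | add b b' _ _ h h' => rw [Submodule.coe_add, add_mul, map_add, h, h', add_zero]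
    | smul c b _ h => rw [Submodule.coe_smul, smul_mul_assoc, map_smul, h, smul_zero]
  exact h3 _ h2

/-- Dual bases. -/
lemma exists_dual {D : X.Cycles} (hD : X.IsCyc 1 D) (hHL : HardLefschetz W X D) {i m : ℕ}
    (hi : i ≤ X.dim) (hb : W.betti X i = m + 1) :
    ∃ x y : Basis (Fin (m + 1)) W.K (W.gr X i), ∀ r s,
      W.tr X ((x r : W.H X) * (y s : W.H X) * W.cl X D ^ (X.dim - i)) = if s = r then 1 else 0 := by
  classical
  let y : Basis (Fin (m + 1)) W.K (W.gr X i) := Module.finBasisOfFinrankEq W.K _ hb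
  refine ⟨(gf W X i (W.cl X D ^ (X.dim - i))).dualBasis (gf_nondeg hD hHL hi) y, y,
    fun r s => ?_⟩
  rw [← gf_apply, LinearMap.BilinForm.apply_dualBasis_left]

end Pool.Agent.R910.Det
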