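import Pool.Agent.R910.Det.Alg
import Pool.Agent.R910.Det.Stm
import Pool.Agent.Y133.Half.Growth

/-!
# External products of classes on the powers of a variety
-/

open CategoryTheory AlgebraicGeometry

universe u v

namespace Pool.Agent.R910.Det

open Pool.Agent.H914 Pool.Agent.H914.VarClass Pool.Agent.H914.VarClass.Obj
  Pool.Agent.H914.WeilCohomology Pool.Agent.Y133.Half

variable {k : Type u} [Field k] {𝒱 : VarClass k} {ops : CycleOps 𝒱}
  {W : WeilCohomology.{u, v} ops} {X : 𝒱.Obj}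

lemma pr_eq (X : 𝒱.Obj) : ∀ (m : ℕ) (i : Fin (m + 1)), pr X m i = prj X m i
  | 0, _ => rfl
  | m + 1, i => by
    refine Fin.lastCases ?_ (fun j => ?_) i
    · rw [prj_last, pr, Fin.lastCases_last]; rfl
    · rw [prj_castSucc, pr, Fin.lastCases_castSucc, pr_eq X m]; rfl

/-- The external product of the classes `x 0`, ..., `x m`. -/
noncomputable def wd (W : WeilCohomology.{u, v} ops) (X : 𝒱.Obj) (m : ℕ)
    (x : Fin (m + 1) → W.H X) : W.H (pw X m) :=
  (List.ofFn fun r => W.map (prj X m r) (x r)).prod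

lemma wd_zero (x : Fin 1 → W.H X) : wd W X 0 x = x 0 := by
  rw [wd, List.ofFn_succ, List.ofFn_zero, List.prod_singleton]
  exact W.map_id _ _

lemma wd_succ (m : ℕ) (x : Fin (m + 2) → W.H X) :
    wd W X (m + 1) x = xp W (X := pw X m) (wd W X m fun r => x r.castSucc)
      (x (Fin.last _)) := by
  have h1 : wd W X (m + 1) x = W.map (pfst X m) (wd W X m fun r => x r.castSucc) *
      W.map (psnd X m) (x (Fin.last _)) := by
    rw [wd, List.ofFn_succ', List.prod_concat, prj_last, wd, map_list_prod, List.map_ofFn]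
    congr 3
    funext i
    rw [Function.comp_apply, prj_castSucc, W.map_comp]
  exact h1

lemma wd_mem {i : ℕ} : ∀ (m : ℕ) (x : Fin (m + 1) → W.H X), (∀ r, x r ∈ W.gr X i) →
    wd W X m x ∈ W.gr (pw X m) (i * (m + 1))
  | 0, x, hx => by rw [wd_zero, zero_add, mul_one]; exact hx 0
  | m + 1, x, hx => by
    rw [wd_succ, mul_add, mul_one]
    exact W.mul_mem (W.map_mem _ (wd_mem m _ fun r => hx _)) (W.map_mem _ (hx _))

/-- The action of the permutations on external products. -/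
lemma tau_wd {i : ℕ} (m : ℕ) (x : Fin (m + 1) → W.H X) (hx : ∀ r, x r ∈ W.gr X i)
    (σ : Equiv.Perm (Fin (m + 1))) :
    W.map (tau X m σ) (wd W X m (x ∘ σ)) = sgp W.K i σ • wd W X m x := by
  have h1 : W.map (tau X m σ) (wd W X m (x ∘ σ)) =
      (List.ofFn ((fun r => W.map (prj X m r) (x r)) ∘ σ)).prod := by
    rw [wd, map_list_prod, List.map_ofFn]
    congr 2
    funext r
    rw [Function.comp_apply, ← W.map_comp, tau_prj]
    rfl
  rw [h1, prod_perm (i := i) (K := W.K)]
  · rfl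
  · intro r s
    have h2 := W.comm (W.map_mem (prj X m r) (hx r)) (W.map_mem (prj X m s) (hx s))
    rw [h2]
    congr 1
    apply neg_pow_congr
    rcases Nat.even_or_odd i with h | h
    · rw [Nat.mul_mod, Nat.even_iff.1 h]
    · rw [Nat.mul_mod, Nat.odd_iff.1 h]

/-- The external product as a multilinear map. -/
noncomputable def wdM (W : WeilCohomology.{u, v} ops) (X : 𝒱.Obj) (m : ℕ) :
    MultilinearMap W.K (fun _ : Fin (m + 1) => W.H X) (W.H (pw X m)) :=
  (MultilinearMap.mkPiAlgebraFin W.K (m + 1) (W.H (pw X m))).compLinearMap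
    fun r => (W.map (prj X m r)).toLinearMap

lemma wdM_apply (m : ℕ) (x : Fin (m + 1) → W.H X) : wdM W X m x = wd W X m x := rfl

/-- The antisymmetrized external product. -/
noncomputable def alt (W : WeilCohomology.{u, v} ops) (X : 𝒱.Obj) (m : ℕ) :
    W.H X [⋀^Fin (m + 1)]→ₗ[W.K] W.H (pw X m) :=
  (wdM W X m).alternatization

lemma alt_apply (m : ℕ) (x : Fin (m + 1) → W.H X) : alt W X m x =
    ∑ σ : Equiv.Perm (Fin (m + 1)), ((Equiv.Perm.sign σ : ℤ) : W.K) • wd W X m (x ∘ σ) := by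
  rw [alt, MultilinearMap.alternatization_apply]
  refine Finset.sum_congr rfl fun σ _ => ?_
  rw [MultilinearMap.domDomCongr_apply, wdM_apply, Units.smul_def, ← Int.cast_smul_eq_zsmul W.K]
  rfl

lemma alt_eq (m : ℕ) (x : Fin (m + 1) → W.H X) : alt W X m x = wedge W X m x := by
  rw [alt_apply, wedge]
  refine Finset.sum_congr rfl fun σ _ => ?_
  rw [wd]
  congr 3
  funext r
  rw [pr_eq]
  rfl

lemma alt_perm (m : ℕ) (x : Fin (m + 1) → W.H X) (σ : Equiv.Perm (Fin (m + 1))) :
    alt W X m (x ∘ σ) = ((Equiv.Perm.sign σ : ℤ) : W.K) • alt W X m x := by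
  rw [AlternatingMap.map_perm, Units.smul_def, ← Int.cast_smul_eq_zsmul W.K]

/-- The space `det H^i(X) ⊗ det H^i(X)`. -/
noncomputable def detSq' (W : WeilCohomology.{u, v} ops) (X : 𝒱.Obj) (i m : ℕ) :
    Submodule W.K (W.H ((pw X m).prod (pw X m))) :=
  Submodule.span W.K {c | ∃ v w : Fin (m + 1) → W.H X, (∀ r, v r ∈ W.gr X i) ∧
    (∀ r, w r ∈ W.gr X i) ∧ c = W.map (fst _ _) (wedge W X m v) *
      W.map (snd _ _) (wedge W X m w)}

lemma mem_detSq_iff {i m : ℕ} {c : W.H (pw2 X m)} : c ∈ detSq W X i m ↔ c ∈ detSq' W X i m := by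
  have h : {c | IsDetGen W X i m c} = {c | ∃ v w : Fin (m + 1) → W.H X, (∀ r, v r ∈ W.gr X i) ∧
    (∀ r, w r ∈ W.gr X i) ∧ c = W.map (fst _ _) (wedge W X m v) *
      W.map (snd _ _) (wedge W X m w)} := by
    ext c
    constructor
    · rintro ⟨v, w, hv, hw, h⟩
      exact ⟨v, w, hv, hw, h.symm⟩
    · rintro ⟨v, w, hv, hw, h⟩
      exact ⟨v, w, hv, hw, h.symm⟩
  have h2 : detSq W X i m = detSq' W X i m := by
    unfold detSq detSq'
    exact congrArg (Submodule.span W.K) h
  rw [h2]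
  exact Iff.rfl

end Pool.Agent.R910.Det
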